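import Pool.Agent.W2helper2.LL.BJStm

/-!
# Project LL, stage 2, piece TRI: the minima of the three neighbours
-/

set_option autoImplicit false

noncomputable section

namespace Pool.Agent.W2helper77.LL

open IsDedekindDomain Polynomial Matrix WithZero
open Pool.Agent.W2helper63.LL Pool.Agent.W2helper2.LL
open scoped Classical

theorem val_T (h : S_FRI) : Valued.v (Tu : Kinf) = exp (1 : ℤ) := by
  have h1 : Valued.v ((pinf : Kinfˣ) : Kinf) = exp (-1 : ℤ) := h.val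
  unfold pinf at h1
  rw [Units.val_inv_eq_inv_val, map_inv₀, WithZero.exp_neg] at h1
  exact inv_injective h1

/-- discreteness -/
theorem disc {u w : WithZero (Multiplicative ℤ)} (h : u < w) : exp (1 : ℤ) * u ≤ w := by
  by_cases hu : u = 0
  · rw [hu, mul_zero]
    exact zero_le
  · have hw : w ≠ 0 := (lt_of_le_of_lt zero_le h).ne'
    rw [← exp_log hu, ← exp_log hw] at h ⊢
    rw [exp_lt_exp] at h
    rw [← exp_add, exp_le_exp]
    omega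

theorem vec_mul (ξ : Fin 2 → R) (g h : GL (Fin 2) Kinf) :
    vec ξ (g * h) = vec ξ g ᵥ* h.1 := by
  unfold Pool.Agent.W2helper2.LL.vec
  rw [Units.val_mul, Matrix.vecMul_vecMul]

theorem vec_add (ξ η : Fin 2 → R) (g : GL (Fin 2) Kinf) :
    vec (ξ + η) g = vec ξ g + vec η g := by
  unfold Pool.Agent.W2helper2.LL.vec
  rw [← Matrix.add_vecMul]
  congr 1
  funext i
  simp

theorem vec_neg (ξ : Fin 2 → R) (g : GL (Fin 2) Kinf) :
    vec (-ξ) g = - vec ξ g := by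
  unfold Pool.Agent.W2helper2.LL.vec
  rw [← Matrix.neg_vecMul]
  congr 1
  funext i
  simp

section

variable (x : Fin 2 → Kinf)

theorem mul_D0 : (x ᵥ* Dm.1) 0 = x 0 * Tu := by
  simp [Dm, bor, Matrix.vecMul, dotProduct, Fin.sum_univ_two]

theorem mul_D1 : (x ᵥ* Dm.1) 1 = x 1 := by
  simp [Dm, bor, Matrix.vecMul, dotProduct, Fin.sum_univ_two]

theorem mul_s0 : (x ᵥ* (sw : GL (Fin 2) Kinf).1) 0 = x 1 := by
  simp [sw, Matrix.vecMul, dotProduct, Fin.sum_univ_two]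

theorem mul_s1 : (x ᵥ* (sw : GL (Fin 2) Kinf).1) 1 = x 0 := by
  simp [sw, Matrix.vecMul, dotProduct, Fin.sum_univ_two]

theorem mul_n0 : (x ᵥ* (nu 1 : GL (Fin 2) Kinf).1) 0 = x 0 := by
  simp [nu, bor, Matrix.vecMul, dotProduct, Fin.sum_univ_two]

theorem mul_n1 : (x ᵥ* (nu 1 : GL (Fin 2) Kinf).1) 1 = x 0 + x 1 := by
  simp [nu, bor, Matrix.vecMul, dotProduct, Fin.sum_univ_two]

end

variable (g : GL (Fin 2) Kinf) (ξ : Fin 2 → R)

theorem nm0 (h : S_FRI) : nm (vec ξ (g * Dm)) =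
    max (exp (1 : ℤ) * Valued.v (vec ξ g 0)) (Valued.v (vec ξ g 1)) := by
  unfold nm
  rw [vec_mul, mul_D0, mul_D1, map_mul, val_T h, mul_comm]

theorem nm1 (h : S_FRI) : nm (vec ξ (g * sw * Dm)) =
    max (exp (1 : ℤ) * Valued.v (vec ξ g 1)) (Valued.v (vec ξ g 0)) := by
  rw [nm0 (g * sw) ξ h, vec_mul, mul_s0, mul_s1]

theorem nm2 (h : S_FRI) : nm (vec ξ (g * (nu 1 * sw) * Dm)) =
    max (exp (1 : ℤ) * Valued.v (vec ξ g 0 + vec ξ g 1)) (Valued.v (vec ξ g 0)) := by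
  rw [← mul_assoc, nm1 (g * nu 1) ξ h, vec_mul, mul_n0, mul_n1]

/-- types -/
def T0 (g : GL (Fin 2) Kinf) (ξ : Fin 2 → R) : Prop :=
  Valued.v (vec ξ g 0) < Valued.v (vec ξ g 1)
def T1 (g : GL (Fin 2) Kinf) (ξ : Fin 2 → R) : Prop :=
  Valued.v (vec ξ g 1) < Valued.v (vec ξ g 0)
def T2 (g : GL (Fin 2) Kinf) (ξ : Fin 2 → R) : Prop :=
  Valued.v (vec ξ g 0) = Valued.v (vec ξ g 1)

theorem le_e1 (u : WithZero (Multiplicative ℤ)) : u ≤ exp (1 : ℤ) * u := by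
  by_cases hu : u = 0
  · rw [hu, mul_zero]
  · rw [← exp_log hu, ← exp_add, exp_le_exp]
    omega

theorem e1_le {u w : WithZero (Multiplicative ℤ)} (h : u ≤ w) : u ≤ exp (1 : ℤ) * w := h.trans (le_e1 w)

theorem two' (h : S_FRI) {x y : Kinf} (hxy : Valued.v x = Valued.v y) (hy : y ≠ 0) :
    Valued.v (x + y) < Valued.v y := by
  have h1 : Valued.v (x / y) = 1 := by
    rw [map_div₀, hxy, div_self ((Valuation.ne_zero_iff _).2 hy)]
  have h2 := h.two (x / y) 1 h1 (map_one _)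
  have h3 : x + y = (x / y + 1) * y := by
    field_simp
  rw [h3, map_mul]
  have hy' : 0 < Valued.v y := by
    rw [zero_lt_iff]
    exact (Valuation.ne_zero_iff _).2 hy
  calc Valued.v (x / y + 1) * Valued.v y < 1 * Valued.v y :=
        mul_lt_mul_of_pos_right h2 hy'
    _ = Valued.v y := one_mul _

theorem a0 (h : S_FRI) (t : T0 g ξ) : nm (vec ξ (g * Dm)) = nm (vec ξ g) := by
  unfold T0 at t
  rw [nm0 g ξ h]
  unfold nm
  rw [max_eq_right (disc t), max_eq_right t.le]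

theorem b0 (h : S_FRI) (t : ¬ T0 g ξ) : nm (vec ξ (g * Dm)) = exp (1 : ℤ) * nm (vec ξ g) := by
  unfold T0 at t
  rw [not_lt] at t
  rw [nm0 g ξ h]
  unfold nm
  rw [max_eq_left t, max_eq_left (e1_le t)]

theorem a1 (h : S_FRI) (t : T1 g ξ) : nm (vec ξ (g * sw * Dm)) = nm (vec ξ g) := by
  unfold T1 at t
  rw [nm1 g ξ h]
  unfold nm
  rw [max_eq_right (disc t), max_eq_left t.le]

theorem b1 (h : S_FRI) (t : ¬ T1 g ξ) :
    nm (vec ξ (g * sw * Dm)) = exp (1 : ℤ) * nm (vec ξ g) := by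
  unfold T1 at t
  rw [not_lt] at t
  rw [nm1 g ξ h]
  unfold nm
  rw [max_eq_right t, max_eq_left (e1_le t)]

theorem a2 (h : S_FRI) (t : T2 g ξ) : nm (vec ξ (g * (nu 1 * sw) * Dm)) = nm (vec ξ g) := by
  unfold T2 at t
  rw [nm2 g ξ h]
  unfold nm
  by_cases hy : vec ξ g 1 = 0
  · have hx : vec ξ g 0 = 0 := by
      rw [hy, map_zero] at t
      exact (map_eq_zero _).1 t
    rw [hx, hy, add_zero, map_zero, mul_zero]
  · rw [t, max_self, max_eq_right (disc (two' h t hy))]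

theorem b2 (h : S_FRI) (t : ¬ T2 g ξ) :
    nm (vec ξ (g * (nu 1 * sw) * Dm)) = exp (1 : ℤ) * nm (vec ξ g) := by
  unfold T2 at t
  rw [nm2 g ξ h]
  unfold nm
  rw [Valuation.map_add_of_distinct_val _ t, max_eq_left (e1_le (le_max_left _ _))]

theorem tri_of (g g' : GL (Fin 2) Kinf) (P : (Fin 2 → R) → Prop) (m : ℤ)
    (ha : ∀ ξ, P ξ → nm (vec ξ g') = nm (vec ξ g))
    (hb : ∀ ξ, ¬ P ξ → nm (vec ξ g') = exp (1 : ℤ) * nm (vec ξ g)) (hm : IsMin g m) :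
    ((∃ ξ : Fin 2 → R, ξ ≠ 0 ∧ nm (vec ξ g) = exp m ∧ P ξ) → IsMin g' m) ∧
    ((¬ ∃ ξ : Fin 2 → R, ξ ≠ 0 ∧ nm (vec ξ g) = exp m ∧ P ξ) → IsMin g' (m + 1)) := by
  constructor
  · rintro ⟨ξ, h0, h1, h2⟩
    refine ⟨⟨ξ, h0, by rw [ha ξ h2, h1]⟩, fun η hη => ?_⟩
    by_cases hP : P η
    · rw [ha η hP]
      exact hm.2 η hη
    · rw [hb η hP]
      exact e1_le (hm.2 η hη)
  · intro hno
    obtain ⟨ξ, h0, h1⟩ := hm.1
    have e : exp (m + 1) = exp (1 : ℤ) * (exp m : WithZero (Multiplicative ℤ)) := by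
      rw [← exp_add, add_comm]
    refine ⟨⟨ξ, h0, ?_⟩, fun η hη => ?_⟩
    · rw [hb ξ (fun hP => hno ⟨ξ, h0, h1, hP⟩), h1, e]
    · rw [e]
      by_cases hP : P η
      · rw [ha η hP]
        refine disc (lt_of_le_of_ne (hm.2 η hη) fun hh => hno ⟨η, hη, hh.symm, hP⟩)
      · rw [hb η hP]
        exact mul_le_mul_right (hm.2 η hη) _

theorem v_le {g : GL (Fin 2) Kinf} {ξ : Fin 2 → R} {c : WithZero (Multiplicative ℤ)} (h : nm (vec ξ g) = c) :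
    Valued.v (vec ξ g 0) ≤ c ∧ Valued.v (vec ξ g 1) ≤ c := by
  unfold nm at h
  exact ⟨h ▸ le_max_left _ _, h ▸ le_max_right _ _⟩

theorem add_ne {g : GL (Fin 2) Kinf} {ξ η : Fin 2 → R} (P : (Fin 2 → Kinf) → Prop)
    (hP : ∀ x, P x → P (-x)) (h1 : P (vec ξ g)) (h2 : ¬ P (vec η g)) : ξ + η ≠ 0 := by
  intro h
  have h3 : η = -ξ := by
    rw [add_comm] at h
    exact eq_neg_of_add_eq_zero_left h
  apply h2
  rw [h3, vec_neg]
  exact hP _ h1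

theorem min_add {g : GL (Fin 2) Kinf} {m : ℤ} (hm : IsMin g m) {ξ η : Fin 2 → R}
    (h1 : nm (vec ξ g) = exp m) (h2 : nm (vec η g) = exp m) (h0 : ξ + η ≠ 0) :
    nm (vec (ξ + η) g) = exp m := by
  refine le_antisymm ?_ (hm.2 _ h0)
  unfold nm
  rw [vec_add]
  obtain ⟨a, b⟩ := v_le h1
  obtain ⟨c, d⟩ := v_le h2
  refine max_le ?_ ?_
  · exact (Valuation.map_add _ _ _).trans (max_le a c)
  · exact (Valuation.map_add _ _ _).trans (max_le b d)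

theorem tri : S_TRI := by
  intro h hE4 g m hm
  have k0 := tri_of g (g * Dm) (T0 g) m (fun ξ => a0 g ξ h) (fun ξ => b0 g ξ h) hm
  have k1 := tri_of g (g * sw * Dm) (T1 g) m (fun ξ => a1 g ξ h) (fun ξ => b1 g ξ h) hm
  have k2 := tri_of g (g * (nu 1 * sw) * Dm) (T2 g) m (fun ξ => a2 g ξ h)
    (fun ξ => b2 g ξ h) hm
  have e0 : (0 : WithZero (Multiplicative ℤ)) < exp m := exp_pos
  -- explicit valuations
  have s0 : ∀ ξ : Fin 2 → R, nm (vec ξ g) = exp m → T0 g ξ →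
      Valued.v (vec ξ g 0) < exp m ∧ Valued.v (vec ξ g 1) = exp m := by
    intro ξ h1 h2
    unfold T0 at h2
    unfold nm at h1
    rw [max_eq_right h2.le] at h1
    exact ⟨h1 ▸ h2, h1⟩
  have s1 : ∀ ξ : Fin 2 → R, nm (vec ξ g) = exp m → T1 g ξ →
      Valued.v (vec ξ g 1) < exp m ∧ Valued.v (vec ξ g 0) = exp m := by
    intro ξ h1 h2
    unfold T1 at h2
    unfold nm at h1
    rw [max_eq_left h2.le] at h1
    exact ⟨h1 ▸ h2, h1⟩
  have s2 : ∀ ξ : Fin 2 → R, nm (vec ξ g) = exp m → T2 g ξ →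
      Valued.v (vec ξ g 0) = exp m ∧ Valued.v (vec ξ g 1) = exp m := by
    intro ξ h1 h2
    unfold T2 at h2
    unfold nm at h1
    rw [h2, max_self] at h1
    exact ⟨h2.trans h1, h1⟩
  have n0 : ∀ ξ : Fin 2 → R, nm (vec ξ g) = exp m → ξ ≠ 0 := by
    rintro ξ h1 rfl
    have : vec (0 : Fin 2 → R) g = 0 := by
      have := vec_add 0 0 g
      rw [add_zero] at this
      simpa using this
    rw [this] at h1
    unfold nm at h1
    simp at h1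
    exact e0.ne h1
  -- the sum of two vectors of different types
  have m01 : ∀ ξ η : Fin 2 → R, nm (vec ξ g) = exp m → T0 g ξ → nm (vec η g) = exp m → T1 g η →
      ∃ ζ : Fin 2 → R, ζ ≠ 0 ∧ nm (vec ζ g) = exp m ∧ T2 g ζ := by
    intro ξ η h1 t1 h2 t2
    have hne : ξ + η ≠ 0 := add_ne (g := g) (fun x => Valued.v (x 0) < Valued.v (x 1))
      (fun x hx => by simpa using hx) t1 (not_lt.2 t2.le)
    refine ⟨ξ + η, hne, min_add hm h1 h2 hne, ?_⟩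
    obtain ⟨u1, u2⟩ := s0 ξ h1 t1
    obtain ⟨w1, w2⟩ := s1 η h2 t2
    unfold T2
    rw [vec_add, Pi.add_apply, Pi.add_apply,
      Valuation.map_add_eq_of_lt_right _ (by rw [w2]; exact u1),
      Valuation.map_add_eq_of_lt_left _ (by rw [u2]; exact w1), u2, w2]
  have m02 : ∀ ξ η : Fin 2 → R, nm (vec ξ g) = exp m → T0 g ξ → nm (vec η g) = exp m → T2 g η →
      ∃ ζ : Fin 2 → R, ζ ≠ 0 ∧ nm (vec ζ g) = exp m ∧ T1 g ζ := by
    intro ξ η h1 t1 h2 t2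
    have hne : ξ + η ≠ 0 := add_ne (g := g) (fun x => Valued.v (x 0) < Valued.v (x 1))
      (fun x hx => by simpa using hx) t1 (not_lt.2 (le_of_eq t2.symm))
    refine ⟨ξ + η, hne, min_add hm h1 h2 hne, ?_⟩
    obtain ⟨u1, u2⟩ := s0 ξ h1 t1
    obtain ⟨w1, w2⟩ := s2 η h2 t2
    have e5 : Valued.v (vec ξ g 0 + vec η g 0) = exp m := by
      rw [Valuation.map_add_eq_of_lt_right _ (by rw [w1]; exact u1), w1]
    unfold T1
    rw [vec_add, Pi.add_apply, Pi.add_apply, e5, ← w2]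
    refine two' h (u2.trans w2.symm) ?_
    intro h9
    rw [h9, map_zero] at w2
    exact e0.ne w2
  have m12 : ∀ ξ η : Fin 2 → R, nm (vec ξ g) = exp m → T1 g ξ → nm (vec η g) = exp m → T2 g η →
      ∃ ζ : Fin 2 → R, ζ ≠ 0 ∧ nm (vec ζ g) = exp m ∧ T0 g ζ := by
    intro ξ η h1 t1 h2 t2
    have hne : ξ + η ≠ 0 := add_ne (g := g) (fun x => Valued.v (x 1) < Valued.v (x 0))
      (fun x hx => by simpa using hx) t1 (not_lt.2 (le_of_eq t2))
    refine ⟨ξ + η, hne, min_add hm h1 h2 hne, ?_⟩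
    obtain ⟨u1, u2⟩ := s1 ξ h1 t1
    obtain ⟨w1, w2⟩ := s2 η h2 t2
    have e5 : Valued.v (vec ξ g 1 + vec η g 1) = exp m := by
      rw [Valuation.map_add_eq_of_lt_right _ (by rw [w2]; exact u1), w2]
    unfold T0
    rw [vec_add, Pi.add_apply, Pi.add_apply, e5, ← w1]
    refine two' h (u2.trans w1.symm) ?_
    intro h9
    rw [h9, map_zero] at w1
    exact e0.ne w1
  have mdet : ∀ ξ η : Fin 2 → R, nm (vec ξ g) = exp m → T0 g ξ → nm (vec η g) = exp m →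
      T1 g η → Valued.v g.1.det = exp (2 * m) := by
    intro ξ η h1 t1 h2 t2
    refine hE4 g m hm ξ η h1 h2 ?_
    obtain ⟨u1, u2⟩ := s0 ξ h1 t1
    obtain ⟨w1, w2⟩ := s1 η h2 t2
    have e1 : Valued.v (vec ξ g 1 * vec η g 0) = exp (2 * m) := by
      rw [map_mul, u2, w2, ← exp_add, two_mul]
    have e2 : Valued.v (vec ξ g 0 * vec η g 1) < exp (2 * m) := by
      rw [map_mul, two_mul, exp_add]
      exact mul_lt_mul'' u1 w1 zero_le zero_le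
    rw [Valuation.map_sub_swap, Valuation.map_sub_eq_of_lt_left _ (by rw [e1]; exact e2), e1]
  by_cases c0 : ∃ ξ : Fin 2 → R, ξ ≠ 0 ∧ nm (vec ξ g) = exp m ∧ T0 g ξ
  · by_cases c1 : ∃ ξ : Fin 2 → R, ξ ≠ 0 ∧ nm (vec ξ g) = exp m ∧ T1 g ξ
    · obtain ⟨ξ, -, h1, t1⟩ := c0
      obtain ⟨η, -, h2, t2⟩ := c1
      have c2 := m01 ξ η h1 t1 h2 t2
      exact Or.inr (Or.inr (Or.inr ⟨k0.1 ⟨ξ, n0 ξ h1, h1, t1⟩, k1.1 ⟨η, n0 η h2, h2, t2⟩, k2.1 c2,
        mdet ξ η h1 t1 h2 t2⟩))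
    · by_cases c2 : ∃ ξ : Fin 2 → R, ξ ≠ 0 ∧ nm (vec ξ g) = exp m ∧ T2 g ξ
      · obtain ⟨ξ, -, h1, t1⟩ := c0
        obtain ⟨η, -, h2, t2⟩ := c2
        exact absurd (m02 ξ η h1 t1 h2 t2) c1
      · exact Or.inl ⟨k0.1 c0, k1.2 c1, k2.2 c2⟩
  · by_cases c1 : ∃ ξ : Fin 2 → R, ξ ≠ 0 ∧ nm (vec ξ g) = exp m ∧ T1 g ξ
    · by_cases c2 : ∃ ξ : Fin 2 → R, ξ ≠ 0 ∧ nm (vec ξ g) = exp m ∧ T2 g ξ
      · obtain ⟨ξ, -, h1, t1⟩ := c1
        obtain ⟨η, -, h2, t2⟩ := c2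
        exact absurd (m12 ξ η h1 t1 h2 t2) c0
      · exact Or.inr (Or.inl ⟨k0.2 c0, k1.1 c1, k2.2 c2⟩)
    · by_cases c2 : ∃ ξ : Fin 2 → R, ξ ≠ 0 ∧ nm (vec ξ g) = exp m ∧ T2 g ξ
      · exact Or.inr (Or.inr (Or.inl ⟨k0.2 c0, k1.2 c1, k2.1 c2⟩))
      · exfalso
        obtain ⟨ξ, h0, h1⟩ := hm.1
        rcases lt_trichotomy (Valued.v (vec ξ g 0)) (Valued.v (vec ξ g 1)) with t | t | t
        · exact c0 ⟨ξ, h0, h1, t⟩
        · exact c2 ⟨ξ, h0, h1, t⟩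
        · exact c1 ⟨ξ, h0, h1, t⟩

end Pool.Agent.W2helper77.LL
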